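import Pool.Agent.TH297.Liou.Fin

/-!
# MP_ad2fa1_an: negative solutions need not be radially symmetric

There is one function `q` such that for every real `N ≥ 0` and every integer `m ≥ 0` with
`m > N - 1` the equation `Δu + p(|x|) q(e^u) = 4πN δ` on the plane, with `p(r) = r^(2(m-N))`,
satisfies (H1)-(H8) and has a negative solution which is not radially symmetric about the origin.
(For an integer `N` one may take `m = N`, so that `p = 1`.)

The solution is `u = 2 N log |x| + log (8 (m+1)^2 l^(2m+2)) - 2 log (1 + |(l z)^(m+1) - 1|^2)` for a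
small `l > 0`; it is so negative that only the part `q(s) = s`, `s ≤ 1/e`, of `q` is seen.
-/

set_option autoImplicit false

namespace Pool.Agent.Results.MP_ad2fa1_an.NonradialSolutions

open MeasureTheory Filter Topology Set Laplacian InnerProductSpace

/-- The Euclidean plane. -/
abbrev Plane : Type := EuclideanSpace ℝ (Fin 2)

/-- Hypothesis (H1). -/
def H1 (f g : ℝ → ℝ) : Prop :=
  ContDiff ℝ 1 f ∧ ContDiff ℝ 1 g ∧ IntegrableOn (fun t => |t * f t|) (Iic 0) ∧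
    ∃ C : ℝ, ∀ u, |g u| + |deriv g u| ≤ C

/-- Hypothesis (H2). -/
def H2 (f g : ℝ → ℝ) : Prop :=
  (∀ t, 0 < f t) ∧ Tendsto f atTop atTop ∧ g 0 = 0 ∧ ∀ u < 0, 0 < g u

/-- Hypothesis (H3). -/
def H3 (f : ℝ → ℝ) : Prop := ∀ t, 0 ≤ deriv f t

/-- Finiteness of `∫_0^∞ f(t) g(-M t) dt` (the integrand is nonnegative under (H2)). -/
def FiniteIntegral (f g : ℝ → ℝ) (M : ℝ) : Prop :=
  IntegrableOn (fun t => f t * g (-M * t)) (Ioi 0)

/-- Hypothesis (H4). -/
def H4 (f g : ℝ → ℝ) : Prop :=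
  ∃ M : ℝ, 0 < M ∧ (∀ u < -M, 0 < deriv g u) ∧ FiniteIntegral f g M

/-- Hypothesis (H5); `inf_{t>0} f(t-c)/f(t) > 0` is written as a positive lower bound. -/
def H5 (f g : ℝ → ℝ) : Prop :=
  ¬ FiniteIntegral f g (sInf {M : ℝ | 0 < M ∧ FiniteIntegral f g M}) ∧
    ∀ c > 0, ∃ ε > 0, ∀ t > 0, ε ≤ f (t - c) / f t

/-- `F₁ = f' / f`. -/
noncomputable def F₁ (f : ℝ → ℝ) (t : ℝ) : ℝ := deriv f t / f t

/-- `G₁ = G₀ / g` with `G₀(u) = ∫_{-∞}^u g`. -/
noncomputable def G₁ (g : ℝ → ℝ) (u : ℝ) : ℝ := (∫ s in Iic u, g s) / g u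

/-- Hypotheses (H6) and (H7), with `f₁` and `g₁` the two limits. -/
def H67 (f g : ℝ → ℝ) : Prop :=
  (∀ u, IntegrableOn g (Iic u)) ∧ ∃ f₁ g₁ : ℝ,
    Tendsto (F₁ f) atTop (𝓝 f₁) ∧ Tendsto (G₁ g) atBot (𝓝 g₁) ∧
    (∀ t, f₁ ≤ F₁ f t) ∧ ∀ u < 0, g₁ ≤ G₁ g u

/-- Hypothesis (H8). -/
def H8 (g : ℝ → ℝ) : Prop := ∃ δ > 0, ∀ u ∈ Icc (-δ) 0, deriv g u ≤ 0

/-- All hypotheses (H1)-(H8) for `f(t) = e^(2t) p(e^t)` and `g(u) = q(e^u)`. -/
def AllHypotheses (p q : ℝ → ℝ) : Prop :=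
  let f : ℝ → ℝ := fun t => Real.exp (2 * t) * p (Real.exp t)
  let g : ℝ → ℝ := fun u => q (Real.exp u)
  H1 f g ∧ H2 f g ∧ H3 f ∧ H4 f g ∧ H5 f g ∧ H67 f g ∧ H8 g

/-- `u` is a negative solution of `Δu + p(|x|) q(e^u) = 4πN δ` in the plane: `u` is locally
integrable, smooth away from the origin, negative away from the origin, and the equation holds in
the sense of distributions. -/
structure IsNegativeSolution (N : ℝ) (p q : ℝ → ℝ) (u : Plane → ℝ) : Prop where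
  locallyIntegrable : LocallyIntegrable u
  smooth : ContDiffOn ℝ ((⊤ : ℕ∞) : WithTop ℕ∞) u {0}ᶜ
  locallyIntegrable_rhs : LocallyIntegrable (fun x : Plane => p ‖x‖ * q (Real.exp (u x)))
  equation : ∀ φ : Plane → ℝ, ContDiff ℝ ((⊤ : ℕ∞) : WithTop ℕ∞) φ → HasCompactSupport φ →
    (∫ x, u x * Δ φ x) + (∫ x, p ‖x‖ * q (Real.exp (u x)) * φ x) = 4 * Real.pi * N * φ 0
  negative : ∀ x, x ≠ 0 → u x < 0

/-- `u` depends only on `|x|` on the punctured plane. -/
def IsRadial (u : Plane → ℝ) : Prop := ∀ x y : Plane, x ≠ 0 → y ≠ 0 → ‖x‖ = ‖y‖ → u x = u y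

open Pool.Agent.TH297.Liou in
theorem hypotheses {N : ℝ} {m : ℕ} (hm : N < m + 1) :
    AllHypotheses (fun r => r ^ (2 * ((m : ℝ) - N))) qf := by
  set κ : ℝ := 2 * m + 2 - 2 * N with hκ
  have hκp : 0 < κ := by rw [hκ]; linarith
  have hf : (fun t : ℝ => Real.exp (2 * t) * (fun r : ℝ => r ^ (2 * ((m : ℝ) - N))) (Real.exp t)) =
      fun t => Real.exp (κ * t) := by
    funext t
    simp only
    rw [← Real.exp_mul, ← Real.exp_add]
    congr 1
    rw [hκ]; ring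
  have hg : (fun u : ℝ => qf (Real.exp u)) = gf := funext qf_exp
  unfold AllHypotheses
  simp only
  simp only at hf
  rw [hf, hg]
  have hF : ∀ t, F₁ (fun t => Real.exp (κ * t)) t = κ := by
    intro t
    rw [F₁, deriv_fk, mul_div_assoc, div_self (Real.exp_pos _).ne', mul_one]
  have hG1 : ∀ u < 0, 1 ≤ G₁ gf u := by
    intro u hu
    rw [G₁, one_le_div (gf_pos hu)]
    exact le_integral_gf u
  have hG2 : ∀ u ≤ -1, G₁ gf u = 1 := by
    intro u hu
    rw [G₁, integral_gf_of_le hu, gf_of_le hu, div_self (Real.exp_pos _).ne']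
  refine ⟨⟨by fun_prop, contDiff_infty.1 contDiff_gf 1, integrable_tf hκp, exists_bound⟩,
    ⟨fun t => Real.exp_pos _, ?_, gf_of_nonneg le_rfl, fun u hu => gf_pos hu⟩, ?_, ?_, ?_, ?_, ?_⟩
  · exact Real.tendsto_exp_atTop.comp (tendsto_id.const_mul_atTop hκp)
  · intro t
    rw [deriv_fk]; positivity
  · refine ⟨κ + 1, by linarith, fun u hu => ?_, (integrable_iff hκp (by linarith)).2 (by linarith)⟩
    rw [deriv_gf_of_lt (by linarith)]
    exact Real.exp_pos _
  · refine ⟨?_, ?_⟩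
    · have h := sInf_eq hκp
      unfold FiniteIntegral
      rw [h, integrable_iff hκp hκp]
      exact lt_irrefl _
    · intro c _
      refine ⟨Real.exp (-κ * c), Real.exp_pos _, fun t _ => le_of_eq ?_⟩
      rw [← Real.exp_sub]
      congr 1; ring
  · refine ⟨integrableOn_gf, κ, 1, ?_, ?_, fun t => (hF t).ge, hG1⟩
    · exact tendsto_const_nhds.congr fun t => (hF t).symm
    · refine tendsto_const_nhds.congr' ?_
      filter_upwards [eventually_le_atBot (-1 : ℝ)] with u hu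
      exact (hG2 u hu).symm
  · exact ⟨1 / 4, by norm_num, fun u hu => deriv_gf_nonpos hu.1 hu.2⟩

/-- One function `q`, equal to the identity on `(0, 1/e]` and with `u ↦ q(e^u)` smooth, serves for
all `N ≥ 0` and all integers `m ≥ 0` with `m > N - 1`: with `p(r) = r^(2(m-N))` the hypotheses
(H1)-(H8) hold and there is a negative solution which is not radially symmetric. -/
theorem result :
    ∃ q : ℝ → ℝ, (∀ s, 0 < s → s ≤ Real.exp (-1) → q s = s) ∧
      ContDiff ℝ ((⊤ : ℕ∞) : WithTop ℕ∞) (fun u : ℝ => q (Real.exp u)) ∧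
      ∀ (N : ℝ) (m : ℕ), 0 ≤ N → N < m + 1 →
        AllHypotheses (fun r => r ^ (2 * ((m : ℝ) - N))) q ∧
        ∃ u : Plane → ℝ, IsNegativeSolution N (fun r => r ^ (2 * ((m : ℝ) - N))) q u ∧
          ¬ IsRadial u := by
  open Pool.Agent.TH297.Liou in
  refine ⟨qf, ?_, ?_, ?_⟩
  · intro s hs hs1
    rw [qf, kf_of_le, mul_one]
    rw [← Real.log_exp (-1)]
    exact Real.log_le_log hs hs1
  · have hg : (fun u : ℝ => qf (Real.exp u)) = gf := funext qf_exp
    rw [hg]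
    exact contDiff_gf
  · intro N m hN hm
    refine ⟨hypotheses hm, ?_⟩
    obtain ⟨Λ, hΛ⟩ := exists_scale hm
    have hl : 0 < Real.exp (-Λ) := Real.exp_pos _
    have hs : ∀ x : E2, x ≠ 0 → sol N m (Real.exp (-Λ)) x ≤ -1 := fun x hx => sol_le hN hm hΛ hx
    refine ⟨sol N m (Real.exp (-Λ)), ⟨locInt_sol _ _ _, smooth_sol _ _ _, locInt_rhs hl hs,
      fun φ hφ hc => equation hl hs hφ hc, fun x hx => by linarith [hs x hx]⟩, ?_⟩
    obtain ⟨x, y, hx, hy, hxy, hne⟩ := not_radial N m hl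
    exact fun h => hne (h x y hx hy hxy)

end Pool.Agent.Results.MP_ad2fa1_an.NonradialSolutions
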